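import Mathlib

set_option autoImplicit false

namespace Pool.Agent.H.MP_9803f8_al

open Equiv

@[ext] structure Hg where
  x : ℚ
  y : ℚ
  u : ℚˣ
  w : AddCircle (1 : ℚ)

instance : Mul Hg := ⟨fun a b => ⟨b.x + a.x * b.u, a.u * b.y + a.y, a.u * b.u, a.w + b.w + ((a.x * b.y : ℚ) : AddCircle (1 : ℚ))⟩⟩
instance : One Hg := ⟨⟨0, 0, 1, 0⟩⟩
instance : Inv Hg := ⟨fun a => ⟨-(a.x * (a.u⁻¹ : ℚˣ)), -((a.u⁻¹ : ℚˣ) * a.y), a.u⁻¹, -a.w + ((a.x * (a.u⁻¹ : ℚˣ) * a.y : ℚ) : AddCircle (1 : ℚ))⟩⟩

theorem mul_def (a b : Hg) : a * b =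
    ⟨b.x + a.x * b.u, a.u * b.y + a.y, a.u * b.u, a.w + b.w + ((a.x * b.y : ℚ) : AddCircle (1 : ℚ))⟩ := rfl
theorem one_def : (1 : Hg) = ⟨0, 0, 1, 0⟩ := rfl
theorem inv_def (a : Hg) : a⁻¹ =
    ⟨-(a.x * (a.u⁻¹ : ℚˣ)), -((a.u⁻¹ : ℚˣ) * a.y), a.u⁻¹, -a.w + ((a.x * (a.u⁻¹ : ℚˣ) * a.y : ℚ) : AddCircle (1 : ℚ))⟩ := rfl

instance : Group Hg := Group.ofLeftAxioms
  (fun a b c => by
    simp only [mul_def]
    ext
    · simp only [Units.val_mul]; ring
    · simp only [Units.val_mul]; ring
    · simp only [Units.val_mul]; ring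
    · simp only
      have : a.x * b.y + (b.x + a.x * b.u) * c.y = b.x * c.y + a.x * (b.u * c.y + b.y) := by ring
      have h := congrArg (fun q : ℚ => (q : AddCircle (1 : ℚ))) this
      simp only [AddCircle.coe_add] at h
      have e : ∀ p q r s u v w : AddCircle (1 : ℚ), p + q = r + s → u + v + p + w + q = u + (v + w + r) + s := by
        intro p q r s u v w h
        rw [show u + v + p + w + q = u + v + w + (p + q) by abel, h]; abel
      exact e _ _ _ _ _ _ _ h)
  (fun a => by
    simp only [mul_def, one_def]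
    ext <;> simp)
  (fun a => by
    simp only [mul_def, one_def, inv_def]
    ext
    · simp
    · simp
    · simp
    · simp)

def X (q : ℚ) : Hg := ⟨q, 0, 1, 0⟩
def Y (q : ℚ) : Hg := ⟨0, q, 1, 0⟩
def W (q : ℚ) : Hg := ⟨0, 0, 1, (q : AddCircle (1 : ℚ))⟩
def T (u : ℚˣ) : Hg := ⟨0, 0, u, 0⟩
def two : ℚˣ := Units.mk0 2 (by norm_num)

theorem T_pow (u : ℚˣ) (m : ℕ) : T u ^ m = T (u ^ m) := by
  induction m with
  | zero => simp [T, one_def]
  | succ m ih => rw [pow_succ, ih]; simp [T, mul_def, pow_succ]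

theorem W_pow (q : ℚ) (m : ℕ) : W q ^ m = W (m * q) := by
  induction m with
  | zero => simp [W, one_def]
  | succ m ih => rw [pow_succ, ih]; simp [W, mul_def, add_mul]

theorem conjX (u : ℚˣ) (q : ℚ) : T u * X q * (T u)⁻¹ = X (q * (u⁻¹ : ℚˣ)) := by
  simp [T, X, mul_def, inv_def]

theorem comm (p r : ℚ) : X p * Y r * (X p)⁻¹ * (Y r)⁻¹ = W (p * r) := by
  simp [X, Y, W, mul_def, inv_def]

theorem W_one : W 1 = 1 := by
  simp [W, one_def]

theorem W_central (q : ℚ) (a : Hg) : W q * a = a * W q := by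
  simp [W, mul_def, add_comm]

theorem W_half : W (1 / 2) ≠ 1 := by
  intro h
  have h1 : (((1 / 2 : ℚ)) : AddCircle (1 : ℚ)) = 0 := congrArg Hg.w h
  obtain ⟨n, hn⟩ := (AddCircle.coe_eq_zero_iff (1 : ℚ)).1 h1
  have h2 : (2 * n : ℚ) = 1 := by simp at hn; rw [hn]; norm_num
  have h3 : 2 * n = 1 := by exact_mod_cast h2
  omega

def gens : Set Hg := {X 1, Y 1, T two}
def K : Subgroup Hg := Subgroup.closure gens
def a : K := ⟨X 1, Subgroup.subset_closure (by simp [gens])⟩
def b : K := ⟨Y 1, Subgroup.subset_closure (by simp [gens])⟩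
def t : K := ⟨T two, Subgroup.subset_closure (by simp [gens])⟩
def c (m : ℕ) : K := (t ^ m * a * (t ^ m)⁻¹) * b * (t ^ m * a * (t ^ m)⁻¹)⁻¹ * b⁻¹

theorem c_val (m : ℕ) : (c m : Hg) = W (1 / 2 ^ m) := by
  have : (c m : Hg) = (T two ^ m * X 1 * (T two ^ m)⁻¹) * Y 1 * (T two ^ m * X 1 * (T two ^ m)⁻¹)⁻¹ * (Y 1)⁻¹ := by
    simp [c, a, b, t]
  rw [this, T_pow, conjX, comm]
  simp [two]

theorem c_zero : c 0 = 1 := Subtype.ext (by rw [c_val]; simp [W_one])

theorem c_pow (m : ℕ) : c (m + 1) ^ (2 ^ m) = c 1 := Subtype.ext (by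
  rw [Subgroup.coe_pow, c_val, c_val, W_pow]
  congr 1
  push_cast
  field_simp
  ring)

theorem z_sq : c 1 * c 1 = 1 := Subtype.ext (by
  rw [← pow_two, Subgroup.coe_pow, c_val, W_pow]
  norm_num [W_one])

theorem z_ne : c 1 ≠ 1 := fun h => W_half (by
  have := congrArg Subtype.val h
  rwa [c_val, pow_one] at this)

theorem z_central (k : K) : c 1 * k = k * c 1 := Subtype.ext (by
  simp only [Subgroup.coe_mul, c_val, W_central])

theorem z_res (Q : Type) [Group Q] [Finite Q] (φ : K →* Q) : φ (c 1) = 1 := by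
  obtain ⟨m, hm⟩ : ∃ m, Nat.card Q = m + 1 := ⟨Nat.card Q - 1, by have := Nat.card_pos (α := Q); omega⟩
  have h1 : φ t ^ (m + 1) = 1 := by rw [← hm]; exact pow_card_eq_one'
  have h2 : φ (c (m + 1)) = φ (c 0) := by simp [c, h1]
  rw [← c_pow m, map_pow, h2, c_zero]
  simp

instance : Infinite K := Infinite.of_injective (fun m : ℕ => t ^ m) fun m n h => by
  have h1 := congrArg Subtype.val h
  simp only [Subgroup.coe_pow, t, T_pow] at h1
  have h2 : two ^ m = two ^ n := congrArg Hg.u h1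
  have h3 := congrArg Units.val h2
  simp only [Units.val_pow_eq_pow_val, two, Units.val_mk0] at h3
  exact pow_right_injective₀ (by norm_num) (by norm_num) h3

theorem K_gen : Subgroup.closure ({a, b, t} : Set K) = ⊤ := by
  have := Subgroup.closure_closure_coe_preimage (k := gens)
  refine Eq.trans ?_ this
  congr 1
  ext x
  simp only [Set.mem_insert_iff, Set.mem_singleton_iff, Subtype.ext_iff]
  rfl

/-! The general construction -/

abbrev Z : Subgroup K := Subgroup.zpowers (c 1)
abbrev Om : Type := K ⧸ Z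

theorem mem_Z {k : K} (h : k ∈ Z) : k = 1 ∨ k = c 1 := by
  obtain ⟨n, rfl⟩ := h
  have h2 : c 1 ^ (2 : ℤ) = 1 := by rw [zpow_two, z_sq]
  rcases Int.emod_two_eq_zero_or_one n with h | h
  · left; show c 1 ^ n = 1; rw [zpow_eq_zpow_emod n h2, h, zpow_zero]
  · right; show c 1 ^ n = c 1; rw [zpow_eq_zpow_emod n h2, h, zpow_one]

instance : Infinite Om := by
  refine not_finite_iff_infinite.1 fun h => ?_
  have : Finite Z := Set.Finite.subset (Set.toFinite ({1, c 1} : Set K)) fun k hk => mem_Z hk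
  exact not_finite_iff_infinite.2 (inferInstanceAs (Infinite K))
    (Finite.of_equiv _ (Subgroup.groupEquivQuotientProdSubgroup (s := Z)).symm)

theorem fix_mem {k : K} {ω : Om} (h : k • ω = ω) : k = 1 ∨ k = c 1 := by
  obtain ⟨g, rfl⟩ := QuotientGroup.mk_surjective ω
  rw [MulAction.Quotient.smul_mk, QuotientGroup.eq, smul_eq_mul] at h
  rcases mem_Z (Z.inv_mem h) with h | h
  · left
    have : k * g = 1 * g := by rw [one_mul]; exact inv_mul_eq_one.1 (inv_eq_one.1 h)
    exact mul_right_cancel this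
  · right
    have : k * g = c 1 * g := by rw [z_central, ← h]; group
    exact mul_right_cancel this

theorem z_smul (ω : Om) : c 1 • ω = ω := by
  obtain ⟨g, rfl⟩ := QuotientGroup.mk_surjective ω
  rw [MulAction.Quotient.smul_mk, QuotientGroup.eq, smul_eq_mul, z_central]
  simp

def φ : K →* Perm Om × K := (MulAction.toPermHom K Om).prod (MonoidHom.id K)

def o : Om := ((1 : K) : Om)

open Classical in
def gs : Set (Perm Om × K) :=
  {φ a, φ b, φ t, φ (c 1), (swap o (a • o), 1), (swap o (b • o), 1), (swap o (t • o), 1)}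

def G : Subgroup (Perm Om × K) := Subgroup.closure gs

theorem φ_mem (k : K) : φ k ∈ G := by
  have : k ∈ Subgroup.closure ({a, b, t} : Set K) := K_gen ▸ Subgroup.mem_top k
  induction this using Subgroup.closure_induction with
  | mem x hx =>
    refine Subgroup.subset_closure ?_
    rcases hx with rfl | rfl | rfl <;> simp [gs]
  | one => rw [map_one]; exact G.one_mem
  | mul x y _ _ hx hy => rw [map_mul]; exact G.mul_mem hx hy
  | inv x _ hx => rw [map_inv]; exact G.inv_mem hx

open Classical in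
theorem swap_conj (k : K) (p q : Om) (h : (swap p q, (1 : K)) ∈ G) : (swap (k • p) (k • q), (1 : K)) ∈ G := by
  have := G.mul_mem (G.mul_mem (φ_mem k) h) (G.inv_mem (φ_mem k))
  convert this using 1
  refine Prod.ext ?_ (by simp [φ])
  simp only [φ, MonoidHom.prod_apply, Prod.fst_mul, Prod.fst_inv]
  exact Equiv.swap_apply_apply (MulAction.toPermHom K Om k) p q

open Classical in
theorem swap_tr {p q r : Om} (h1 : (swap p q, (1 : K)) ∈ G) (h2 : (swap q r, (1 : K)) ∈ G) : (swap p r, (1 : K)) ∈ G := by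
  by_cases hpq : p = q
  · rwa [hpq]
  by_cases hpr : p = r
  · rw [hpr, swap_self]; exact G.one_mem
  have := G.mul_mem (G.mul_mem h2 h1) h2
  simp only [Prod.mk_mul_mk, mul_one] at this
  rwa [swap_mul_swap_mul_swap hpq hpr, swap_comm] at this

open Classical in
theorem swap_mem (p q : Om) : (swap p q, (1 : K)) ∈ G := by
  have key : ∀ k : K, (swap o (k • o), (1 : K)) ∈ G := by
    intro k
    have : k ∈ Subgroup.closure ({a, b, t} : Set K) := K_gen ▸ Subgroup.mem_top k
    induction this using Subgroup.closure_induction with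
    | mem x hx =>
      refine Subgroup.subset_closure ?_
      rcases hx with rfl | rfl | rfl <;> simp [gs]
    | one => rw [one_smul, swap_self]; exact G.one_mem
    | mul x y _ _ hx hy => exact swap_tr hx (by rw [mul_smul]; exact swap_conj x _ _ hy)
    | inv x _ hx =>
      have := swap_conj x⁻¹ _ _ hx
      rwa [inv_smul_smul, swap_comm] at this
  have ho : ∀ p : Om, ∃ k : K, k • o = p := fun p => by
    obtain ⟨g, rfl⟩ := QuotientGroup.mk_surjective p
    exact ⟨g, by rw [o, MulAction.Quotient.smul_mk, smul_eq_mul, mul_one]⟩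
  obtain ⟨k, rfl⟩ := ho p
  obtain ⟨l, rfl⟩ := ho q
  exact swap_tr (by rw [swap_comm]; exact key k) (key l)

open Classical in
theorem agree {g : Perm Om × K} (hg : g ∈ G) : {ω | g.1 ω ≠ g.2 • ω}.Finite := by
  have sw : ∀ p q : Om, {ω | swap p q ω ≠ (1 : K) • ω}.Finite := fun p q =>
    (Set.toFinite ({p, q} : Set Om)).subset fun ω h => by
      by_contra hn
      simp only [Set.mem_insert_iff, Set.mem_singleton_iff, not_or] at hn
      exact h (by rw [swap_apply_of_ne_of_ne hn.1 hn.2, one_smul])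
  have ph : ∀ k : K, {ω | (φ k).1 ω ≠ (φ k).2 • ω}.Finite := fun k => by simp [φ]
  induction hg using Subgroup.closure_induction with
  | mem x hx =>
    rcases hx with rfl | rfl | rfl | rfl | rfl | rfl | rfl
    exacts [ph _, ph _, ph _, ph _, sw _ _, sw _ _, sw _ _]
  | one => simp
  | mul x y _ _ hx hy =>
    refine (hy.union (hx.preimage (f := y.1) y.1.injective.injOn)).subset fun ω h => ?_
    by_contra hn
    simp only [Set.mem_union, Set.mem_ofPred_eq, Set.mem_preimage, not_or, not_not] at hn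
    exact h (by rw [Prod.fst_mul, Prod.snd_mul, Perm.mul_apply, hn.2, hn.1, mul_smul])
  | inv x _ hx =>
    refine (hx.preimage (f := (x.1⁻¹ : Perm Om)) (x.1⁻¹ : Perm Om).injective.injOn).subset fun ω h => ?_
    intro hn
    apply h
    rw [Prod.fst_inv, Prod.snd_inv, eq_inv_smul_iff, ← hn]
    simp

theorem φ_z : φ (c 1) = (1, c 1) := Prod.ext (Equiv.ext fun ω => z_smul ω) rfl

theorem ker {g : Perm Om × K} (hg : g ∈ G) (h : g.1 = 1) : g = 1 ∨ g = φ (c 1) := by
  obtain ⟨ω, hω⟩ := (agree hg).infinite_compl.nonempty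
  have : g.2 • ω = ω := by
    simp only [Set.mem_compl_iff, Set.mem_ofPred_eq, not_not, h] at hω
    exact hω.symm
  rcases fix_mem this with h2 | h2
  · left; exact Prod.ext h h2
  · right; rw [φ_z]; exact Prod.ext h h2

def HH : Subgroup (Perm Om) := G.map (MonoidHom.fst _ _)
def π : G →* HH := (MonoidHom.fst _ _).subgroupMap G
def zG : G := ⟨φ (c 1), φ_mem _⟩
def S : Set G := Subtype.val ⁻¹' gs

theorem π_surj : Function.Surjective π := MonoidHom.subgroupMap_surjective _ _
theorem S_gen : Subgroup.closure S = ⊤ := Subgroup.closure_closure_coe_preimage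
theorem S_fin : S.Finite := (by unfold gs; exact Set.toFinite _ : gs.Finite).preimage Subtype.val_injective.injOn
theorem zG_mem : zG ∈ S := by simp [S, zG, gs]
theorem π_ker {g : G} (h : π g = 1) : g = 1 ∨ g = zG :=
  (ker g.2 (congrArg Subtype.val h)).imp Subtype.ext Subtype.ext

theorem zG_ne : zG ≠ 1 := fun h => z_ne (congrArg (fun g : G => g.1.2) h)

theorem zG_central (g : G) : zG * g = g * zG := Subtype.ext (by
  simp only [Subgroup.coe_mul, zG, φ_z]
  exact Prod.ext (by simp) (z_central _))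

theorem zG_fi (A : Subgroup G) [A.FiniteIndex] : zG ∈ A :=
  A.normalCore_le ((QuotientGroup.eq_one_iff _).1
    (z_res (G ⧸ A.normalCore) ((QuotientGroup.mk' A.normalCore).comp (φ.codRestrict G φ_mem))))

open Classical in
theorem H_trans (n : ℕ) : MulAction.IsMultiplyPretransitive HH Om n := by
  refine MulAction.isMultiplyPretransitive_iff.2 fun x y => ?_
  have key : ∀ s : Finset (Fin n), ∃ g : HH, ∀ i ∈ s, g.1 (x i) = y i := by
    intro s
    induction s using Finset.induction_on with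
    | empty => exact ⟨1, by simp⟩
    | insert i s hi ih =>
      obtain ⟨g, hg⟩ := ih
      refine ⟨⟨swap (g.1 (x i)) (y i), _, swap_mem _ _, rfl⟩ * g, fun j hj => ?_⟩
      show swap (g.1 (x i)) (y i) (g.1 (x j)) = y j
      rcases Finset.mem_insert.1 hj with rfl | hj
      · exact swap_apply_left _ _
      · have hne : j ≠ i := fun e => hi (e ▸ hj)
        rw [swap_apply_of_ne_of_ne (fun e => hne (x.injective (g.1.injective e))) (by
          rw [hg j hj]; exact fun e => hne (y.injective e)), hg j hj]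
  obtain ⟨g, hg⟩ := key Finset.univ
  exact ⟨g, Function.Embedding.ext fun i => hg i (Finset.mem_univ i)⟩

/-- a finite index subgroup of a faithful 2-transitive group on an infinite set has trivial centre -/
theorem centre {L Ω : Type} [Group L] [MulAction L Ω] [Infinite Ω] [FaithfulSMul L Ω]
    (h2 : MulAction.IsMultiplyPretransitive L Ω 2) (B : Subgroup L) [B.FiniteIndex] (z : L)
    (hz : ∀ g ∈ B, z * g = g * z) : z = 1 := by
  by_contra hne
  obtain ⟨p, hp⟩ : ∃ p : Ω, z • p ≠ p := by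
    by_contra h
    push Not at h
    exact hne (eq_of_smul_eq_smul (α := Ω) fun p => by rw [h, one_smul])
  have ex : ∀ q : {q : Ω // q ≠ p}, ∃ g : L, g • p = p ∧ g • z • p = q := fun q => by
    obtain ⟨g, hg⟩ := MulAction.isMultiplyPretransitive_iff.1 h2
      ⟨![p, z • p], by intro i j; fin_cases i <;> fin_cases j <;> simp [hp, hp.symm]⟩
      ⟨![p, q], by intro i j; fin_cases i <;> fin_cases j <;> simp [q.2, q.2.symm]⟩
    exact ⟨g, congrArg (fun e : Fin 2 ↪ Ω => e 0) hg, congrArg (fun e : Fin 2 ↪ Ω => e 1) hg⟩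
  choose g hg1 hg2 using ex
  have : Infinite {q : Ω // q ≠ p} := (Set.infinite_coe_iff (s := {p}ᶜ)).2 (Set.finite_singleton p).infinite_compl
  obtain ⟨q, r, hqr, e⟩ := Finite.exists_ne_map_eq_of_infinite (fun q => (g q : L ⧸ B))
  apply hqr
  have h1 := hz _ (QuotientGroup.eq.1 e)
  have h3 : ((g q)⁻¹ * g r) • p = p := by rw [mul_smul, hg1, inv_smul_eq_iff, hg1]
  have h4 : ((g q)⁻¹ * g r) • z • p = z • p := by rw [← mul_smul, ← h1, mul_smul, h3]
  rw [mul_smul, hg2, inv_smul_eq_iff, hg2] at h4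
  exact Subtype.ext h4.symm

end Pool.Agent.H.MP_9803f8_al
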